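import Pool.Agent.Helper76.Q7P5.StC

/-!
# Levels `7 * 5^n`, module PLA: the standard matrix

Model: `Pool/Agent/Helper76/TK5/M_PLAK.lean`.
-/

set_option autoImplicit false

namespace Pool.Agent.Helper5.Q7P5

open Pool.Agent.Helper76.Q7P5 Pool.Agent.Helper28.T7

theorem hPlA : HPlA := by
  intro μ r s x y
  refine ⟨Or.inl ⟨by ring, ?_⟩, ?_, ?_⟩
  · unfold rYH
    exact Dvd.dvd.mul_left (dvd_mul_right _ _) _
  · rw [Int.cast_natCast, ZMod.natCast_zmod_val, Int.cast_one, mul_one]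
  · set t : ZMod (5 ^ s) := 5 ^ (μ + 1) * ((x.val : ℕ) : ZMod (5 ^ s)) with ht
    have hu1 : IsUnit (1 - t * y) := by
      refine IsNilpotent.isUnit_one_sub ⟨s, ?_⟩
      have h2 : (5 : ZMod (5 ^ s)) ^ s = 0 := by
        have := ZMod.natCast_self (5 ^ s)
        push_cast at this
        exact this
      have e : t * y = 5 * (5 ^ μ * ((x.val : ℕ) : ZMod (5 ^ s)) * y) := by
        rw [ht, pow_succ]
        ring
      rw [e, mul_pow, h2, zero_mul]
    have hu2 : IsUnit (7 : ZMod (5 ^ s)) := by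
      have h := (ZMod.isUnit_iff_coprime 7 (5 ^ s)).2 (Nat.Coprime.pow_right s (by norm_num))
      exact_mod_cast h
    have hu : IsUnit (7 * (1 - t * y)) := hu2.mul hu1
    have hinv := ZMod.mul_inv_of_unit _ hu
    set v : ZMod (5 ^ s) := (7 * (1 - t * y))⁻¹ with hv
    have hY : ((rYH μ x y : ℤ) : ZMod (5 ^ s)) = 7 * (y * v) := by
      rw [rYH, Int.cast_mul, Int.cast_natCast, ZMod.natCast_zmod_val, Int.cast_ofNat]
    have hd : ((1 + 5 ^ (μ + 1) * (x.val : ℤ) * rYH μ x y : ℤ) : ZMod (5 ^ s)) = 1 + t * (7 * (y * v)) := by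
      rw [Int.cast_add, Int.cast_one, Int.cast_mul, hY, ht]
      push_cast
      ring
    rw [hY, hd]
    have e2 : y * (1 + t * (7 * (y * v))) - 7 * (y * v) = y * (1 - (7 * (1 - t * y)) * v) := by ring
    rw [hinv, sub_self, mul_zero] at e2
    exact (sub_eq_zero.1 e2).symm

end Pool.Agent.Helper5.Q7P5
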